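import Mathlib
import Pool.Agent.H342R3.SA5

/-!
A self-affine set in `ℝ⁴` whose box dimension does not exist.
-/

set_option autoImplicit false

open Filter
open scoped Topology

namespace Pool.Agent.Results.MP_9d74f4_an.NoBoxDimension

/-- The least number `N_δ(E)` of sets of diameter at most `δ` needed to cover `E ⊆ ℝ^d`. -/
noncomputable def coveringNumber {d : ℕ} (E : Set (EuclideanSpace ℝ (Fin d))) (δ : ℝ) : ℕ :=
  sInf {n : ℕ | ∃ U : Fin n → Set (EuclideanSpace ℝ (Fin d)),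
    (∀ i, ∀ x ∈ U i, ∀ y ∈ U i, dist x y ≤ δ) ∧ E ⊆ ⋃ i, U i}

/-- The lower box dimension: `liminf_{δ → 0+} log N_δ(E) / (- log δ)`. -/
noncomputable def lowerBoxDim {d : ℕ} (E : Set (EuclideanSpace ℝ (Fin d))) : EReal :=
  liminf (fun δ : ℝ => ((Real.log (coveringNumber E δ) / -Real.log δ : ℝ) : EReal)) (𝓝[>] 0)

/-- The upper box dimension: `limsup_{δ → 0+} log N_δ(E) / (- log δ)`. -/
noncomputable def upperBoxDim {d : ℕ} (E : Set (EuclideanSpace ℝ (Fin d))) : EReal :=
  limsup (fun δ : ℝ => ((Real.log (coveringNumber E δ) / -Real.log δ : ℝ) : EReal)) (𝓝[>] 0)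

/-- `E ⊆ ℝ^d` is the attractor of the affine iterated function system `f_i(x) = A x + t_i`,
`i = 1, …, m`, where `m ≥ 2` and all maps have the same linear part `A`, which is diagonal,
invertible and of operator norm less than `1`. -/
def IsDiagonalSelfAffine {d m : ℕ} (A : EuclideanSpace ℝ (Fin d) →L[ℝ] EuclideanSpace ℝ (Fin d))
    (t : Fin m → EuclideanSpace ℝ (Fin d)) (E : Set (EuclideanSpace ℝ (Fin d))) : Prop :=
  2 ≤ m ∧ (∃ a : Fin d → ℝ, ∀ x c, A x c = a c * x c) ∧ Function.Bijective A ∧ ‖A‖ < 1 ∧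
    E.Nonempty ∧ IsCompact E ∧ E = ⋃ i, (fun x => A x + t i) '' E

/-- There is a self-affine set in `ℝ⁴` whose lower box dimension is strictly smaller than its
upper box dimension. All maps of the system can be taken with the same diagonal linear part. -/
theorem result : ∃ (m : ℕ) (A : EuclideanSpace ℝ (Fin 4) →L[ℝ] EuclideanSpace ℝ (Fin 4))
    (t : Fin m → EuclideanSpace ℝ (Fin 4)) (E : Set (EuclideanSpace ℝ (Fin 4))),
    IsDiagonalSelfAffine A t E ∧ lowerBoxDim E < upperBoxDim E := by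
  classical
  let e := Fintype.equivFin H342R3.SA.S
  refine ⟨Fintype.card H342R3.SA.S, H342R3.SA.A,
    fun i => H342R3.SA.tr (H342R3.SA.D H342R3.SA.u) (e.symm i),
    Set.range (H342R3.SA.Phi (H342R3.SA.D H342R3.SA.u)), ⟨?_, ⟨H342R3.SA.rat, fun x c => rfl⟩,
      H342R3.SA.A_bij, H342R3.SA.A_norm, ⟨_, ⟨fun _ => Sum.inr 0, rfl⟩⟩,
      H342R3.SA.K_compact _, ?_⟩, H342R3.SA.main_dim⟩
  · have : Fintype.card H342R3.SA.S = 8 * (2 * 511) + 63 := by
      simp [H342R3.SA.S]
    rw [this]; norm_num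
  · have h := H342R3.SA.K_eq (H342R3.SA.D H342R3.SA.u)
    refine h.trans ?_
    ext x
    rw [Set.mem_iUnion, Set.mem_iUnion]
    constructor
    · rintro ⟨i, hi⟩
      refine ⟨e i, ?_⟩
      simpa using hi
    · rintro ⟨i, hi⟩
      exact ⟨e.symm i, hi⟩

end Pool.Agent.Results.MP_9d74f4_an.NoBoxDimension
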